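import Mathlib

/-!
# Typical ranks of looped cycles (MP_541c26_co, Q1)

Every typical rank of the looped cycle on `n ≥ 3` vertices is at most `4`; in particular the maximum
typical rank of a looped cycle is never `5`.

For `n ≥ 4` a partial matrix with diagonal entries `d i` and cycle entries `c i` is completed by
`A i j = (d i + d j) / 2 - (p i - p j) * (q i - q j)`, which has rank at most `4`. It is a completion
iff the steps `x i = p (i + 1) - p i`, `y i = q (i + 1) - q i` of the closed polygon `(p i, q i)`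
satisfy `x i * y i = (d i + d (i + 1)) / 2 - c i`. Four of the steps are enough to close the polygon
when the corresponding products are nonzero.
-/

set_option autoImplicit false

namespace Pool.Agent.Results.MP_541c26_co.NoTypicalRankFive

open Finset

/-- A semisimple graph on `Fin n` is given by its edge set `E`, a set of unordered pairs in which
loops `s(i, i)` are allowed. A `G`-partial matrix assigns a real number to each edge. The matrix `A`
completes `M` when it is symmetric and agrees with `M` on all edges. -/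
def IsCompletion {n : ℕ} {E : Set (Sym2 (Fin n))} (M : E → ℝ) (A : Matrix (Fin n) (Fin n) ℝ) :
    Prop :=
  A.IsSymm ∧ ∀ (i j : Fin n) (h : s(i, j) ∈ E), A i j = M ⟨s(i, j), h⟩

/-- The least rank of a completion of the partial matrix `M`. -/
noncomputable def minCompletionRank {n : ℕ} {E : Set (Sym2 (Fin n))} (M : E → ℝ) : ℕ :=
  sInf {r : ℕ | ∃ A : Matrix (Fin n) (Fin n) ℝ, IsCompletion M A ∧ A.rank = r}

/-- `r` is a typical rank: the set of partial matrices with minimum completion rank `r` has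
nonempty interior in the Euclidean space of all partial matrices. -/
def IsTypicalRank {n : ℕ} (E : Set (Sym2 (Fin n))) (r : ℕ) : Prop :=
  (interior {M : E → ℝ | minCompletionRank M = r}).Nonempty

/-- `r` is the maximum typical rank, the largest of the typical ranks. -/
def IsMaxTypicalRank {n : ℕ} (E : Set (Sym2 (Fin n))) (r : ℕ) : Prop :=
  IsGreatest {s : ℕ | IsTypicalRank E s} r

/-- The looped cycle on `n` vertices: a loop at every vertex `i`, and the edges `{i, i + 1}` with
`i + 1` taken modulo `n`. -/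
def loopedCycle (n : ℕ) : Set (Sym2 (Fin n)) :=
  {e | ∃ i j : Fin n, e = s(i, j) ∧ (i = j ∨ (j : ℕ) = ((i : ℕ) + 1) % n)}

/-- two numbers with prescribed sum and prescribed sum of scaled inverses -/
lemma solve2 (a b X Y : ℝ) (ha : a ≠ 0) (hb : b ≠ 0) (hX : X ≠ 0) (hY : Y ≠ 0)
    (h : 4 * (a * b) ≤ (X * Y - a - b) ^ 2) :
    ∃ x1 y1 x2 y2 : ℝ, x1 * y1 = a ∧ x2 * y2 = b ∧ x1 + x2 = X ∧ y1 + y2 = Y := by
  set D : ℝ := (X * Y - a - b) ^ 2 - 4 * (a * b) with hD
  have hDnn : 0 ≤ D := by linarith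
  set r := Real.sqrt D with hr
  have hr2 : r ^ 2 = D := Real.sq_sqrt hDnn
  set s : ℝ := (X * Y + a - b + r) / (2 * Y) with hs
  have hquad : Y * s ^ 2 + (b - a - Y * X) * s + a * X = 0 := by
    rw [hs]
    field_simp
    have : r ^ 2 = (X * Y - a - b) ^ 2 - 4 * (a * b) := by rw [hr2]
    nlinarith [this]
  have hs0 : s ≠ 0 := by
    intro h0
    rw [h0] at hquad
    have : a * X = 0 := by linarith
    rcases mul_eq_zero.mp this with h1 | h1
    · exact ha h1
    · exact hX h1
  have hsX : X - s ≠ 0 := by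
    intro h0
    have h1 : s = X := by linarith
    rw [h1] at hquad
    have : b * X = 0 := by nlinarith
    rcases mul_eq_zero.mp this with h2 | h2
    · exact hb h2
    · exact hX h2
  refine ⟨s, a / s, X - s, b / (X - s), by field_simp, by field_simp, by ring, ?_⟩
  field_simp
  nlinarith

/-- closing a polygon with four free steps -/
lemma solve4 (a b c d X0 Y0 : ℝ) (ha : a ≠ 0) (hb : b ≠ 0) (hc : c ≠ 0) (hd : d ≠ 0)
    (hX0 : 0 ≤ X0) :
    ∃ x y : Fin 4 → ℝ, x 0 * y 0 = a ∧ x 1 * y 1 = b ∧ x 2 * y 2 = c ∧ x 3 * y 3 = d ∧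
      ∑ i, x i + X0 = 0 ∧ ∑ i, y i + Y0 = 0 := by
  set K : ℝ := |a| + |b| + |c| + |d| with hK
  have ea := abs_nonneg a
  have eb := abs_nonneg b
  have ec := abs_nonneg c
  have ed := abs_nonneg d
  have la := le_abs_self a
  have lb := le_abs_self b
  have lc := le_abs_self c
  have ld := le_abs_self d
  have key : ∀ u v W : ℝ, |u| + |v| ≤ K → 3 * K ≤ W → 4 * (u * v) ≤ (W - u - v) ^ 2 := by
    intro u v W h1 h2
    have hu := abs_nonneg u
    have hv := abs_nonneg v
    have lu := le_abs_self u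
    have lv := le_abs_self v
    have h3 : u * v ≤ |u| * |v| := by
      rw [← abs_mul]; exact le_abs_self _
    have h4 : 2 * K ≤ W - u - v := by linarith
    have hKnn : 0 ≤ K := by positivity
    have h5 : (2 * K) ^ 2 ≤ (W - u - v) ^ 2 := pow_le_pow_left₀ (by linarith) h4 2
    nlinarith [mul_nonneg hu hv, mul_self_nonneg (|u| - |v|)]
  set Y : ℝ := 3 * K + |Y0| + 1 with hY
  have hKnn : 0 ≤ K := by positivity
  have hYpos : 0 < Y := by positivity
  have hYY0 : 3 * K + 1 ≤ Y + Y0 := by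
    have := neg_abs_le Y0
    linarith
  obtain ⟨x0, y0, x1, y1, h1, h2, h3, h4⟩ := solve2 a b 1 Y ha hb one_ne_zero hYpos.ne'
    (key a b (1 * Y) (by linarith) (by linarith [abs_nonneg Y0]))
  have hW : 3 * K ≤ (-(1 + X0)) * (-(Y + Y0)) := by
    have : (-(1 + X0)) * (-(Y + Y0)) = (1 + X0) * (Y + Y0) := by ring
    rw [this]
    nlinarith
  obtain ⟨x2, y2, x3, y3, h5, h6, h7, h8⟩ := solve2 c d (-(1 + X0)) (-(Y + Y0)) hc hd
    (by intro h; linarith) (by intro h; linarith) (key c d _ (by linarith) hW)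
  refine ⟨![x0, x1, x2, x3], ![y0, y1, y2, y3], ?_, ?_, ?_, ?_, ?_, ?_⟩
  · simpa using h1
  · simpa using h2
  · simpa using h5
  · simpa using h6
  · simp only [Fin.sum_univ_four, Matrix.cons_val_zero, Matrix.cons_val_one, Matrix.cons_val]
    linarith
  · simp only [Fin.sum_univ_four, Matrix.cons_val_zero, Matrix.cons_val_one, Matrix.cons_val]
    linarith

/-- closed polygons with prescribed products of coordinates of the steps -/
lemma closed_polygon (m : ℕ) (e : ℕ → ℝ) (h0 : e 0 ≠ 0) (h1 : e 1 ≠ 0) (h2 : e 2 ≠ 0)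
    (h3 : e 3 ≠ 0) :
    ∃ x y : ℕ → ℝ, (∀ i, x i * y i = e i) ∧ ∑ i ∈ range (m + 4), x i = 0 ∧
      ∑ i ∈ range (m + 4), y i = 0 := by
  obtain ⟨x, y, k0, k1, k2, k3, kx, ky⟩ := solve4 (e 0) (e 1) (e 2) (e 3) (m : ℝ)
    (∑ i ∈ range m, e (4 + i)) h0 h1 h2 h3 (Nat.cast_nonneg m)
  refine ⟨fun i => if h : i < 4 then x ⟨i, h⟩ else 1, fun i => if h : i < 4 then y ⟨i, h⟩ else e i,
    ?_, ?_, ?_⟩
  · intro i
    by_cases h : i < 4
    · simp only [h, dif_pos]
      interval_cases i
      · exact k0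
      · exact k1
      · exact k2
      · exact k3
    · simp only [h, dif_neg, not_false_eq_true, one_mul]
  · have e1 : ∑ i ∈ range 4, (if h : i < 4 then x ⟨i, h⟩ else (1 : ℝ)) = ∑ i : Fin 4, x i := by
      rw [Finset.sum_range]
      refine sum_congr rfl fun i _ => ?_
      rw [dif_pos i.2]
    have e2 : ∑ i ∈ range m, (if h : 4 + i < 4 then x ⟨4 + i, h⟩ else (1 : ℝ)) = m := by
      have : ∀ i ∈ range m, (if h : 4 + i < 4 then x ⟨4 + i, h⟩ else (1 : ℝ)) = 1 := by
        intro i _
        rw [dif_neg (by omega)]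
      rw [sum_congr rfl this]
      simp
    rw [add_comm m 4, sum_range_add, e1, e2]
    exact kx
  · have e1 : ∑ i ∈ range 4, (if h : i < 4 then y ⟨i, h⟩ else e i) = ∑ i : Fin 4, y i := by
      rw [Finset.sum_range]
      refine sum_congr rfl fun i _ => ?_
      rw [dif_pos i.2]
    have e2 : ∑ i ∈ range m, (if h : 4 + i < 4 then y ⟨4 + i, h⟩ else e (4 + i))
        = ∑ i ∈ range m, e (4 + i) := by
      refine sum_congr rfl fun i _ => ?_
      rw [dif_neg (by omega)]
    rw [add_comm m 4, sum_range_add, e1, e2]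
    exact ky

/-- the completion `A i j = (d i + d j) / 2 - (p i - p j) * (q i - q j)` has rank at most `4` -/
lemma rank_le_four (n : ℕ) (d p q : Fin n → ℝ) :
    (Matrix.of fun i j : Fin n => (d i + d j) / 2 - (p i - p j) * (q i - q j)).rank ≤ 4 := by
  set B : Matrix (Fin n) (Fin 4) ℝ := Matrix.of fun i k => ![d i / 2 - p i * q i, 1, p i, q i] k
    with hB
  set C : Matrix (Fin 4) (Fin n) ℝ := Matrix.of fun k j => ![1, d j / 2 - p j * q j, q j, p j] k
    with hC
  have h : (Matrix.of fun i j : Fin n => (d i + d j) / 2 - (p i - p j) * (q i - q j)) = B * C := by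
    ext i j
    rw [Matrix.mul_apply, Fin.sum_univ_four]
    simp only [hB, hC, Matrix.of_apply, Matrix.cons_val_zero, Matrix.cons_val_one, Matrix.cons_val]
    ring
  rw [h]
  exact (Matrix.rank_mul_le_left B C).trans ((Matrix.rank_le_card_width B).trans (by simp))

/-- partial matrices with four nonzero products have a completion of rank at most `4` -/
lemma completion (m : ℕ) (M : loopedCycle (m + 4) → ℝ) (e : ℕ → ℝ)
    (he : ∀ (i j : Fin (m + 4)) (h : (j : ℕ) = ((i : ℕ) + 1) % (m + 4)),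
      e i = (M ⟨s(i, i), i, i, rfl, Or.inl rfl⟩ + M ⟨s(j, j), j, j, rfl, Or.inl rfl⟩) / 2
        - M ⟨s(i, j), i, j, rfl, Or.inr h⟩)
    (h0 : e 0 ≠ 0) (h1 : e 1 ≠ 0) (h2 : e 2 ≠ 0) (h3 : e 3 ≠ 0) : minCompletionRank M ≤ 4 := by
  obtain ⟨x, y, hxy, hx, hy⟩ := closed_polygon m e h0 h1 h2 h3
  set d : Fin (m + 4) → ℝ := fun i => M ⟨s(i, i), i, i, rfl, Or.inl rfl⟩ with hd
  set p : Fin (m + 4) → ℝ := fun i => ∑ k ∈ range i, x k with hp
  set q : Fin (m + 4) → ℝ := fun i => ∑ k ∈ range i, y k with hq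
  have hstep : ∀ (i j : Fin (m + 4)), (j : ℕ) = ((i : ℕ) + 1) % (m + 4) →
      p j = p i + x i ∧ q j = q i + y i := by
    intro i j hij
    rcases Nat.lt_or_ge ((i : ℕ) + 1) (m + 4) with hlt | hge
    · rw [Nat.mod_eq_of_lt hlt] at hij
      simp only [hp, hq, hij, sum_range_succ, and_self]
    · have hi : (i : ℕ) + 1 = m + 4 := le_antisymm i.2 hge
      rw [hi, Nat.mod_self] at hij
      simp only [hp, hq, hij, range_zero, sum_empty]
      rw [← sum_range_succ, ← sum_range_succ, hi, hx, hy]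
      exact ⟨rfl, rfl⟩
  have hprod : ∀ (i j : Fin (m + 4)) (h : (j : ℕ) = ((i : ℕ) + 1) % (m + 4)),
      (d i + d j) / 2 - (p i - p j) * (q i - q j) = M ⟨s(i, j), i, j, rfl, Or.inr h⟩ := by
    intro i j h
    obtain ⟨e1, e2⟩ := hstep i j h
    have e3 : (p i - p j) * (q i - q j) = e i := by
      rw [e1, e2, ← hxy]
      ring
    rw [e3, he i j h]
    ring
  refine le_trans (Nat.sInf_le (m := (Matrix.of fun i j : Fin (m + 4) =>
    (d i + d j) / 2 - (p i - p j) * (q i - q j)).rank) ⟨_, ⟨?_, ?_⟩, rfl⟩) (rank_le_four _ d p q)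
  · ext i j
    simp only [Matrix.transpose_apply, Matrix.of_apply]
    ring
  · intro i j h
    rw [Matrix.of_apply]
    obtain ⟨a, b, hab, hor⟩ := id h
    rcases hor with rfl | hor
    · rw [Sym2.eq_iff] at hab
      rcases hab with ⟨rfl, rfl⟩ | ⟨rfl, rfl⟩
      · rw [sub_self, zero_mul, sub_zero, hd]
        ring
      · rw [sub_self, zero_mul, sub_zero, hd]
        ring
    · rw [Sym2.eq_iff] at hab
      rcases hab with ⟨rfl, rfl⟩ | ⟨rfl, rfl⟩
      · exact hprod _ _ hor
      · have h1 := hprod _ _ hor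
        have h2 : M ⟨s(i, j), h⟩ = M ⟨s(j, i), j, i, rfl, Or.inr hor⟩ := by
          congr 1
          exact Subtype.ext Sym2.eq_swap
        rw [h2, ← h1]
        ring

/-- every partial matrix on at most four vertices has a completion of rank at most `4` -/
lemma completion_small (n : ℕ) (hn : n ≤ 4) (E : Set (Sym2 (Fin n))) (M : E → ℝ) :
    minCompletionRank M ≤ 4 := by
  classical
  refine le_trans (Nat.sInf_le (m := (Matrix.of fun i j : Fin n =>
    if h : s(i, j) ∈ E then M ⟨s(i, j), h⟩ else 0).rank) ⟨_, ⟨?_, ?_⟩, rfl⟩) ?_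
  · ext i j
    simp only [Matrix.transpose_apply, Matrix.of_apply]
    by_cases h : s(i, j) ∈ E
    · have h' : s(j, i) ∈ E := by rwa [Sym2.eq_swap]
      rw [dif_pos h, dif_pos h']
      congr 1
      exact Subtype.ext Sym2.eq_swap
    · have h' : s(j, i) ∉ E := by rwa [Sym2.eq_swap]
      rw [dif_neg h, dif_neg h']
  · intro i j h
    rw [Matrix.of_apply, dif_pos h]
  · exact (Matrix.rank_le_card_width _).trans (by simpa using hn)

/-- Every typical rank of a looped cycle is at most `4`. So the maximum typical rank of a looped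
cycle is different from `5` for every `n ≥ 3`. -/
theorem result :
    (∀ n : ℕ, 3 ≤ n → ∀ r : ℕ, IsTypicalRank (loopedCycle n) r → r ≤ 4) ∧
    ¬ ∃ n : ℕ, 3 ≤ n ∧ IsMaxTypicalRank (loopedCycle n) 5 := by
  have hmain : ∀ n : ℕ, 3 ≤ n → ∀ r : ℕ, IsTypicalRank (loopedCycle n) r → r ≤ 4 := by
    intro n hn r hr
    obtain ⟨M0, hM0⟩ := hr
    rcases Nat.lt_or_ge n 4 with h4 | h4
    · have h1 : M0 ∈ {M : loopedCycle n → ℝ | minCompletionRank M = r} := interior_subset hM0
      rw [Set.mem_ofPred_eq] at h1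
      rw [← h1]
      exact completion_small n (by omega) _ M0
    obtain ⟨m, rfl⟩ : ∃ m, n = m + 4 := ⟨n - 4, by omega⟩
    classical
    -- the perturbation: add `t` on the edges which are not loops
    set P : ℝ → (loopedCycle (m + 4) → ℝ) := fun t x => M0 x + if x.1.IsDiag then 0 else t with hP
    have hPc : Continuous P := by
      refine continuous_pi fun x => ?_
      simp only [hP]
      split_ifs
      · exact continuous_const
      · exact continuous_const.add continuous_id
    set O : Set ℝ := P ⁻¹' interior {M : loopedCycle (m + 4) → ℝ | minCompletionRank M = r} with hO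
    have hOopen : IsOpen O := isOpen_interior.preimage hPc
    have hO0 : (0 : ℝ) ∈ O := by
      have : P 0 = M0 := by
        funext x
        simp only [hP]
        split_ifs <;> simp
      rw [hO, Set.mem_preimage, this]
      exact hM0
    -- the products
    have hnext : ∀ i : ℕ, (i + 1) % (m + 4) < m + 4 := fun i => Nat.mod_lt _ (by omega)
    set e0 : ℕ → ℝ := fun i => if h : i < m + 4 then
      (M0 ⟨s((⟨i, h⟩ : Fin (m + 4)), ⟨i, h⟩), ⟨i, h⟩, ⟨i, h⟩, rfl, Or.inl rfl⟩
        + M0 ⟨s((⟨(i + 1) % (m + 4), hnext i⟩ : Fin (m + 4)), ⟨(i + 1) % (m + 4), hnext i⟩),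
          ⟨(i + 1) % (m + 4), hnext i⟩, ⟨(i + 1) % (m + 4), hnext i⟩, rfl, Or.inl rfl⟩) / 2
        - M0 ⟨s((⟨i, h⟩ : Fin (m + 4)), ⟨(i + 1) % (m + 4), hnext i⟩), ⟨i, h⟩,
          ⟨(i + 1) % (m + 4), hnext i⟩, rfl, Or.inr rfl⟩ else 0 with he0
    obtain ⟨t, htO, ht⟩ : ∃ t ∈ O, t ∉ ({e0 0, e0 1, e0 2, e0 3} : Set ℝ) := by
      have hfin : ({e0 0, e0 1, e0 2, e0 3} : Set ℝ).Finite := by
        simp only [Set.finite_insert, Set.finite_singleton]
      have hdense : Dense (({e0 0, e0 1, e0 2, e0 3} : Set ℝ)ᶜ) := hfin.countable.dense_compl ℝ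
      obtain ⟨t, h1, h2⟩ := hdense.inter_open_nonempty O hOopen ⟨0, hO0⟩
      exact ⟨t, h1, h2⟩
    simp only [Set.mem_insert_iff, Set.mem_singleton_iff, not_or] at ht
    have hrank : P t ∈ {M : loopedCycle (m + 4) → ℝ | minCompletionRank M = r} :=
      interior_subset htO
    rw [Set.mem_ofPred_eq] at hrank
    rw [← hrank]
    have hne : ∀ i j : Fin (m + 4), (j : ℕ) = ((i : ℕ) + 1) % (m + 4) → i ≠ j := by
      intro i j h hij
      subst hij
      rcases Nat.lt_or_ge ((i : ℕ) + 1) (m + 4) with hlt | hge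
      · rw [Nat.mod_eq_of_lt hlt] at h
        omega
      · have hi : (i : ℕ) + 1 = m + 4 := le_antisymm i.2 hge
        rw [hi, Nat.mod_self] at h
        omega
    refine completion m (P t) (fun i => e0 i - t) ?_ (sub_ne_zero.mpr (Ne.symm ht.1))
      (sub_ne_zero.mpr (Ne.symm ht.2.1)) (sub_ne_zero.mpr (Ne.symm ht.2.2.1))
      (sub_ne_zero.mpr (Ne.symm ht.2.2.2))
    intro i j h
    have hj : j = ⟨((i : ℕ) + 1) % (m + 4), hnext i⟩ := Fin.ext h
    subst hj
    have hn := hne i _ h
    simp only [he0, hP, i.2, dif_pos, Sym2.mk_isDiag_iff, if_true]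
    rw [if_neg (by simpa using hn)]
    simp only [Fin.eta]
    ring
  refine ⟨hmain, ?_⟩
  rintro ⟨n, hn, h⟩
  have := hmain n hn 5 h.1
  omega

end Pool.Agent.Results.MP_541c26_co.NoTypicalRankFive
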